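import Mathlib

/-!
Closed form of the determinant `D_p` for every prime `p > 3`.
-/

open MvPolynomial Matrix Finset

namespace Pool.Agent.DPQ

/-- The determinant `D_p` as an element of `ℤ[x,y,z,w]`, where the four indeterminates
`x, y, z, w` are `X 0, X 1, X 2, X 3`. Rows `j` and columns `k` run over `0, …, (p-1)/2`. -/
noncomputable def D (p : ℕ) [Fact p.Prime] : MvPolynomial (Fin 4) ℤ :=
  Matrix.det (Matrix.of fun j k : Fin ((p - 1) / 2 + 1) =>
    X 0 + C (legendreSym p (((j : ℕ) : ℤ) + ((k : ℕ) : ℤ)))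
      + C (legendreSym p (((j : ℕ) : ℤ) - ((k : ℕ) : ℤ)))
      + C (legendreSym p ((j : ℕ) : ℤ)) * X 1 + C (legendreSym p ((k : ℕ) : ℤ)) * X 2
      + C (legendreSym p (((j : ℕ) : ℤ) * ((k : ℕ) : ℤ))) * X 3)


section linear_algebra

variable {R : Type*} [CommRing R]

lemma det_lower {n : ℕ} (M : Matrix (Fin (n + 1)) (Fin (n + 1)) R) (h : ∀ k : Fin n, M 0 k.succ = 0) :
    M.det = M 0 0 * (M.submatrix Fin.succ Fin.succ).det := by
  rw [det_succ_row_zero, Fin.sum_univ_succ]
  simp [h]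

/-- the matrix `[[1, 0], [v, T]]` -/
def low {n : ℕ} (v : Fin n → R) (T : Matrix (Fin n) (Fin n) R) :
    Matrix (Fin (n + 1)) (Fin (n + 1)) R :=
  Matrix.of (Fin.cases (Fin.cases 1 (fun _ => 0)) (fun j => Fin.cases (v j) (fun k => T j k)))

lemma det_low {n : ℕ} (v : Fin n → R) (T : Matrix (Fin n) (Fin n) R) :
    (low v T).det = T.det := by
  rw [det_lower]
  · have : (low v T).submatrix Fin.succ Fin.succ = T := by
      ext i j
      simp [low]
    rw [this]
    simp [low]
  · intro k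
    simp [low]

lemma low_mul_zero {n : ℕ} (v : Fin n → R) (T : Matrix (Fin n) (Fin n) R)
    (X : Matrix (Fin (n + 1)) (Fin (n + 1)) R) (j : Fin (n + 1)) : (low v T * X) 0 j = X 0 j := by
  rw [Matrix.mul_apply, Fin.sum_univ_succ]
  simp [low]

lemma low_mul_succ {n : ℕ} (v : Fin n → R) (T : Matrix (Fin n) (Fin n) R)
    (X : Matrix (Fin (n + 1)) (Fin (n + 1)) R) (i : Fin n) (j : Fin (n + 1)) :
    (low v T * X) i.succ j = v i * X 0 j + ∑ m : Fin n, T i m * X m.succ j := by
  rw [Matrix.mul_apply, Fin.sum_univ_succ]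
  simp [low]

lemma low_one_mul_succ {n : ℕ} (v : Fin n → R)
    (X : Matrix (Fin (n + 1)) (Fin (n + 1)) R) (i : Fin n) (j : Fin (n + 1)) :
    (low v 1 * X) i.succ j = v i * X 0 j + X i.succ j := by
  rw [low_mul_succ]
  simp [Matrix.one_apply]

lemma mul_low_zero {n : ℕ} (v : Fin n → R) (T : Matrix (Fin n) (Fin n) R)
    (X : Matrix (Fin (n + 1)) (Fin (n + 1)) R) (i : Fin (n + 1)) :
    (X * low v T) i 0 = X i 0 + ∑ m : Fin n, X i m.succ * v m := by
  rw [Matrix.mul_apply, Fin.sum_univ_succ]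
  simp [low]

lemma mul_low_succ {n : ℕ} (v : Fin n → R)
    (X : Matrix (Fin (n + 1)) (Fin (n + 1)) R) (i : Fin (n + 1)) (k : Fin n) :
    (X * low v 1) i k.succ = X i k.succ := by
  rw [Matrix.mul_apply, Fin.sum_univ_succ]
  simp [low, Matrix.one_apply]

lemma core {n : ℕ} (T : Matrix (Fin n) (Fin n) R) (c : Fin n → R) (x y z w t S : R)
    (hT : ∀ j, ∑ k, T j k = - c j) (hTc : ∀ j, t * ∑ k, T j k * c k = - t)
    (hS : ∑ k, c k = S) (htS : t * S = 0) (hcc : ∑ k, c k * c k = (n : R))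
    (M : Matrix (Fin (n + 1)) (Fin (n + 1)) R) (h00 : M 0 0 = x)
    (h0 : ∀ k : Fin n, M 0 k.succ = x + (z + t) * c k)
    (h1 : ∀ j : Fin n, M j.succ 0 = x + (y + 2) * c j)
    (h2 : ∀ j k : Fin n, M j.succ k.succ = x + T j k + y * c j + z * c k + w * (c j * c k)) :
    M.det = T.det * ((1 + t * n) * ((2 * n + 1) * x + S * ((y + 2) * z - w * x))) := by
  let A : Matrix (Fin (n + 1)) (Fin 3) R := Matrix.of
    (Fin.cases ![1, 0, 0] (fun j => ![0, 1, c j]))
  let B : Matrix (Fin 3) (Fin (n + 1)) R := Matrix.of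
    ![(Fin.cases ((2 * n + 1) * x + 2 * z * S - 1) (fun k => x + (z + t) * c k)),
      (Fin.cases (-((2 * n + 1) * y + 2 * w * S)) (fun k => - y - w * c k)),
      (Fin.cases 0 (fun k => t * c k))]
  have b00 : B 0 0 = (2 * n + 1) * x + 2 * z * S - 1 := rfl
  have b0s : ∀ k : Fin n, B 0 k.succ = x + (z + t) * c k := fun k => rfl
  have b10 : B 1 0 = -((2 * n + 1) * y + 2 * w * S) := rfl
  have b1s : ∀ k : Fin n, B 1 k.succ = - y - w * c k := fun k => rfl
  have b20 : B 2 0 = 0 := rfl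
  have b2s : ∀ k : Fin n, B 2 k.succ = t * c k := fun k => rfl
  have key : M * low (fun _ => 2) 1 = low (fun _ => 1) 1 * (low (fun _ => 0) T * (1 + A * B)) := by
    have a0 : ∀ j, (1 + A * B : Matrix (Fin (n + 1)) (Fin (n + 1)) R) 0 j = (1 : Matrix (Fin (n + 1)) (Fin (n + 1)) R) 0 j + B 0 j := by
      intro j
      rw [Matrix.add_apply, Matrix.mul_apply, Fin.sum_univ_three]
      simp [A]
    have a1 : ∀ m : Fin n, ∀ j, (1 + A * B : Matrix (Fin (n + 1)) (Fin (n + 1)) R) m.succ j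
        = (1 : Matrix (Fin (n + 1)) (Fin (n + 1)) R) m.succ j + B 1 j + c m * B 2 j := by
      intro m j
      rw [Matrix.add_apply, Matrix.mul_apply, Fin.sum_univ_three]
      simp [A]
      ring
    have hsum : ∀ u v : R, ∀ i : Fin n, ∑ m : Fin n, T i m * (u + c m * v)
        = - c i * u + (∑ m, T i m * c m) * v := by
      intro u v i
      rw [← hT i, Finset.sum_mul, Finset.sum_mul, ← Finset.sum_add_distrib]
      refine Finset.sum_congr rfl fun m _ => ?_
      ring
    have hc1 : ∀ u v : R, ∑ m : Fin n, (u + v * c m) = n * u + v * S := by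
      intro u v
      rw [Finset.sum_add_distrib, ← Finset.mul_sum, hS]
      simp
    ext i j
    refine Fin.cases ?_ (fun i => ?_) i <;> refine Fin.cases ?_ (fun j => ?_) j
    · rw [mul_low_zero, low_mul_zero, low_mul_zero, a0, h00, ← Finset.sum_mul]
      simp only [h0, hc1]
      rw [b00, Matrix.one_apply_eq]
      linear_combination 2 * htS
    · rw [mul_low_succ, low_mul_zero, low_mul_zero, a0, h0, b0s,
        Matrix.one_apply_ne (Fin.succ_ne_zero j).symm, zero_add]
    · rw [mul_low_zero, low_one_mul_succ, low_mul_zero, low_mul_succ, a0, ← Finset.sum_mul]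
      simp only [a1, h1, h2]
      have e1 : ∑ k : Fin n, (x + T i k + y * c i + z * c k + w * (c i * c k))
          = n * x + (- c i) + n * (y * c i) + z * S + w * (c i * S) := by
        rw [← hS, ← hT i]
        simp only [Finset.sum_add_distrib, Finset.mul_sum]
        simp
      rw [e1]
      have e2 : ∀ m : Fin n, (1 : Matrix (Fin (n + 1)) (Fin (n + 1)) R) m.succ 0 = 0 := by
        intro m
        simp [Matrix.one_apply]
      simp only [e2, zero_add]
      rw [hsum]
      rw [b00, b10, b20, Matrix.one_apply_eq]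
      ring
    · rw [mul_low_succ, low_one_mul_succ, low_mul_zero, low_mul_succ, a0, h2]
      simp only [a1]
      have e2 : ∀ m : Fin n, (1 : Matrix (Fin (n + 1)) (Fin (n + 1)) R) m.succ j.succ
          = if m = j then 1 else 0 := by
        intro m
        simp [Matrix.one_apply]
      have e3 : (1 : Matrix (Fin (n + 1)) (Fin (n + 1)) R) 0 j.succ = 0 := by
        simp [Matrix.one_apply, (Fin.succ_ne_zero j).symm]
      have e4 : ∑ m : Fin n, T i m * ((if m = j then 1 else 0) + B 1 j.succ + c m * B 2 j.succ)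
          = T i j + ∑ m : Fin n, T i m * (B 1 j.succ + c m * B 2 j.succ) := by
        have : T i j = ∑ m : Fin n, T i m * (if m = j then 1 else 0) := by simp
        rw [this, ← Finset.sum_add_distrib]
        refine Finset.sum_congr rfl fun m _ => ?_
        ring
      simp only [e2, e3]
      rw [e4, hsum]
      rw [b0s, b1s, b2s]
      linear_combination (- c j) * hTc i
  have h3 : (1 + A * B).det = (1 + t * n) * ((2 * n + 1) * x + S * ((y + 2) * z - w * x)) := by
    rw [det_one_add_mul_comm, det_fin_three]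
    have e : ∀ i j, (B * A) i j = B i 0 * A 0 j + ∑ k : Fin n, B i k.succ * A k.succ j := by
      intro i j
      rw [Matrix.mul_apply, Fin.sum_univ_succ]
    have f1 : ∑ k : Fin n, (x + (z + t) * c k) = n * x + z * S := by
      rw [Finset.sum_add_distrib, ← Finset.mul_sum, hS]
      simp
      linear_combination htS
    have f2 : ∑ k : Fin n, (x + (z + t) * c k) * c k = x * S + (z + t) * n := by
      rw [← hcc, ← hS, Finset.mul_sum, Finset.mul_sum, ← Finset.sum_add_distrib]
      refine Finset.sum_congr rfl fun m _ => ?_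
      ring
    have f3 : ∑ k : Fin n, (- y - w * c k) = - (n * y) - w * S := by
      rw [← hS, Finset.mul_sum, Finset.sum_sub_distrib]
      simp
    have f4 : ∑ k : Fin n, (- y - w * c k) * c k = - (y * S) - w * n := by
      rw [← hcc, ← hS, Finset.mul_sum, Finset.mul_sum, ← Finset.sum_neg_distrib,
        ← Finset.sum_sub_distrib]
      refine Finset.sum_congr rfl fun m _ => ?_
      ring
    have f5 : ∑ k : Fin n, (t * c k) = 0 := by
      rw [← Finset.mul_sum, hS, htS]
    have f6 : ∑ k : Fin n, (t * c k) * c k = t * n := by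
      rw [← hcc, Finset.mul_sum]
      refine Finset.sum_congr rfl fun m _ => ?_
      ring
    have g00 : (B * A) 0 0 = (2 * n + 1) * x + 2 * z * S - 1 := by
      rw [e]; simp [A, B]
    have g01 : (B * A) 0 1 = n * x + z * S := by
      rw [e, ← f1]; simp [A, B]
    have g02 : (B * A) 0 2 = x * S + (z + t) * n := by
      rw [e, ← f2]; simp [A, B]
    have g10 : (B * A) 1 0 = - ((2 * n + 1) * y + 2 * w * S) := by
      rw [e]; simp [A, B]
    have g11 : (B * A) 1 1 = - (n * y) - w * S := by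
      rw [e, ← f3]; simp [A, B]
    have g12 : (B * A) 1 2 = - (y * S) - w * n := by
      rw [e, ← f4]; simp [A, B]
    have g20 : (B * A) 2 0 = 0 := by
      rw [e]; simp [A, B]
    have g21 : (B * A) 2 1 = 0 := by
      rw [e, ← f5]; simp [A, B]
    have g22 : (B * A) 2 2 = t * n := by
      rw [e, ← f6]; simp [A, B]
    simp only [Matrix.add_apply, g00, g01, g02, g10, g11, g12, g20, g21, g22, Matrix.one_apply]
    simp
    ring
  have h4 := congrArg Matrix.det key
  rw [det_mul, det_mul, det_mul, det_low, det_low, det_low, det_one, one_mul, mul_one, h3] at h4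
  exact h4

end linear_algebra

section gram


lemma det_gram {n : ℕ} (p : ℕ) (hp : p = 2 * n + 1) (T : Matrix (Fin n) (Fin n) ℤ) (c : Fin n → ℤ)
    (s S : ℤ) (hTT : ∀ j l, ∑ k, T j k * T l k = (if j = l then (p : ℤ) else 0) - 2 * (c j * c l) - s)
    (hcc : ∑ k, c k * c k = (n : ℤ)) (hS : ∑ k, c k = S) (hsS : s * S = 0) :
    T.det ^ 2 * (p : ℤ) ^ 2 = (p : ℤ) ^ n * (p - s * n) := by
  have hp0 : (p : ℚ) ≠ 0 := by
    have : p ≠ 0 := by omega
    exact_mod_cast this
  let T' : Matrix (Fin n) (Fin n) ℚ := T.map (Int.castRingHom ℚ)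
  have hdet : T'.det = ((T.det : ℤ) : ℚ) := by
    have := (RingHom.map_det (Int.castRingHom ℚ) T).symm
    simpa [T'] using this
  let A : Matrix (Fin n) (Fin 2) ℚ := Matrix.of (fun j => ![(c j : ℚ), 1])
  let B : Matrix (Fin 2) (Fin n) ℚ := Matrix.of
    ![(fun k => -2 / p * (c k : ℚ)), (fun k => - (s : ℚ) / p)]
  have key : T' * T'ᵀ = (p : ℚ) • (1 + A * B) := by
    ext j l
    rw [Matrix.mul_apply, Matrix.smul_apply, Matrix.add_apply, Matrix.mul_apply, Fin.sum_univ_two]
    have h1 : ∑ k, T' j k * T'ᵀ k l = ((∑ k, T j k * T l k : ℤ) : ℚ) := by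
      push_cast
      refine Finset.sum_congr rfl fun k _ => ?_
      simp [T']
    rw [h1, hTT]
    have h2 : A j 0 = (c j : ℚ) := rfl
    have h3 : A j 1 = 1 := rfl
    have h4 : B 0 l = -2 / p * (c l : ℚ) := rfl
    have h5 : B 1 l = - (s : ℚ) / p := rfl
    rw [h2, h3, h4, h5, Matrix.one_apply, smul_eq_mul]
    push_cast
    split_ifs with h
    · field_simp
      push_cast
      ring
    · field_simp
      push_cast
      ring
  have h1 := congrArg Matrix.det key
  rw [det_mul, det_transpose, hdet, det_smul, Fintype.card_fin, det_one_add_mul_comm,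
    det_fin_two] at h1
  have hccQ : ∑ k, (c k : ℚ) * (c k : ℚ) = (n : ℚ) := by exact_mod_cast hcc
  have hSQ : ∑ k, (c k : ℚ) = (S : ℚ) := by exact_mod_cast hS
  have hsSQ : (s : ℚ) * (S : ℚ) = 0 := by exact_mod_cast hsS
  have g00 : (B * A) 0 0 = -2 / p * n := by
    rw [Matrix.mul_apply, ← hccQ, Finset.mul_sum]
    refine Finset.sum_congr rfl fun k _ => ?_
    simp [A, B]
    ring
  have g01 : (B * A) 0 1 = -2 / p * S := by
    rw [Matrix.mul_apply, ← hSQ, Finset.mul_sum]
    refine Finset.sum_congr rfl fun k _ => ?_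
    simp [A, B]
  have g10 : (B * A) 1 0 = - s / p * S := by
    rw [Matrix.mul_apply, ← hSQ, Finset.mul_sum]
    refine Finset.sum_congr rfl fun k _ => ?_
    simp [A, B]
  have g11 : (B * A) 1 1 = - s / p * n := by
    rw [Matrix.mul_apply]
    simp [A, B]
    ring
  simp only [Matrix.add_apply, g00, g01, g10, g11, Matrix.one_apply] at h1
  have hpn : (p : ℚ) = 2 * n + 1 := by
    rw [hp]
    push_cast
    ring
  have h2 : ((T.det : ℤ) : ℚ) ^ 2 * (p : ℚ) ^ 2 = (p : ℚ) ^ n * (p - s * n) := by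
    have e : ((T.det : ℤ) : ℚ) ^ 2 = (p : ℚ) ^ n * ((1 + -2 / p * n) * (1 + - s / p * n)
        - (0 + -2 / p * S) * (0 + - s / p * S)) := by
      rw [sq, h1]
      simp
    rw [e]
    have e2 : (1 + -2 / (p : ℚ) * n) = 1 / p := by
      field_simp
      rw [hpn]
      ring
    rw [e2]
    have e3 : (0 + -2 / (p : ℚ) * S) * (0 + - s / p * S) = 0 := by
      have : (0 + -2 / (p : ℚ) * S) * (0 + - s / p * S) = (2 / p * S / p) * (s * S) := by ring
      rw [this, hsSQ, mul_zero]
    rw [e3]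
    field_simp
    ring
  exact_mod_cast h2

lemma det_mod4 {n : ℕ} (T : Matrix (Fin n) (Fin n) ℤ) (h : ∀ j k, j ≠ k → (2 : ℤ) ∣ T j k) :
    (4 : ℤ) ∣ T.det - ∏ j, T j j := by
  rw [Matrix.det_apply, ← Finset.add_sum_erase _ _ (Finset.mem_univ (1 : Equiv.Perm (Fin n)))]
  simp only [Equiv.Perm.sign_one, one_smul, Equiv.Perm.coe_one, id_eq, add_sub_cancel_left]
  refine Finset.dvd_sum fun σ hσ => ?_
  have hne : σ ≠ 1 := (Finset.mem_erase.mp hσ).1
  obtain ⟨i, hi⟩ : ∃ i, σ i ≠ i := by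
    by_contra hcon
    push Not at hcon
    exact hne (Equiv.ext hcon)
  have hj : σ (σ i) ≠ σ i := fun h' => hi (σ.injective h')
  have hmem : σ i ∈ Finset.univ.erase i := Finset.mem_erase.mpr ⟨hi, Finset.mem_univ _⟩
  have h4 : (4 : ℤ) ∣ ∏ k, T (σ k) k := by
    rw [← Finset.mul_prod_erase _ _ (Finset.mem_univ i), ← Finset.mul_prod_erase _ _ hmem,
      ← mul_assoc]
    apply Dvd.dvd.mul_right
    have := mul_dvd_mul (h _ _ hi) (h _ _ hj)
    norm_num at this
    exact this
  rcases Int.units_eq_one_or (Equiv.Perm.sign σ) with e | e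
  · rw [e, one_smul]
    exact h4
  · rw [e]
    simpa using h4

lemma prod_mod4 {n : ℕ} (c : Fin n → ℤ) (hc : ∀ j, c j = 1 ∨ c j = -1) :
    (4 : ℤ) ∣ (∏ j, c j) - (1 + ∑ j, c j - n) := by
  induction n with
  | zero => simp
  | succ n ih =>
    have h1 := ih (fun j => c j.succ) (fun j => hc _)
    rw [Fin.prod_univ_succ, Fin.sum_univ_succ]
    set P := ∏ j : Fin n, c j.succ with hP
    set Q := ∑ j : Fin n, c j.succ with hQ
    have hodd : ¬ (2 : ℤ) ∣ P := by
      intro hd
      rw [hP] at hd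
      obtain ⟨j, _, hj⟩ := (Int.prime_two.dvd_finsetProd_iff _).mp hd
      rcases hc j.succ with e | e <;> rw [e] at hj <;> norm_num at hj
    push_cast
    rcases hc 0 with e | e <;> rw [e]
    · omega
    · omega

lemma prod_pm {n : ℕ} (c : Fin n → ℤ) (hc : ∀ j, c j = 1 ∨ c j = -1) :
    (∏ j, c j) = 1 ∨ (∏ j, c j) = -1 := by
  induction n with
  | zero => simp
  | succ n ih =>
    rw [Fin.prod_univ_succ]
    rcases ih (fun j => c j.succ) (fun j => hc _) with e | e <;> rcases hc 0 with e' | e' <;>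
      rw [e, e'] <;> norm_num


end gram

section char_sums

variable (p : ℕ) [Fact p.Prime]

local instance : DecidableEq (ZMod p) := inferInstance

/-- the quadratic character of `ZMod p` -/
noncomputable abbrev qc : MulChar (ZMod p) ℤ := quadraticChar (ZMod p)

lemma sum_qc_mul_one_sub (hp : p ≠ 2) : ∑ x : ZMod p, qc p x * qc p (1 - x) = - qc p (-1) := by
  have hne : (qc p) ≠ 1 := quadraticChar_ne_one (by rwa [ZMod.ringChar_zmod_n])
  have := jacobiSum_nontrivial_inv hne
  rw [jacobiSum, (quadraticChar_isQuadratic (ZMod p)).inv] at this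
  exact this

lemma corr (hp : p ≠ 2) (a b : ZMod p) :
    ∑ x : ZMod p, qc p (x + a) * qc p (x + b) = if a = b then (p : ℤ) - 1 else -1 := by
  split_ifs with h
  · subst h
    rw [Fintype.sum_equiv (Equiv.addRight a) (fun x => qc p (x + a) * qc p (x + a))
      (fun x => qc p x * qc p x) (fun x => rfl)]
    have : ∀ x : ZMod p, qc p x * qc p x = if x = 0 then 0 else 1 := by
      intro x
      split_ifs with hx
      · simp [hx]
      · rw [← sq]
        exact quadraticChar_sq_one hx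
    simp only [this]
    rw [Finset.sum_ite, Finset.sum_const_zero, zero_add, Finset.sum_const, Finset.filter_not,
      Finset.filter_eq' , if_pos (Finset.mem_univ _), Finset.card_sdiff_of_subset (by simp)]
    have := (Fact.out : p.Prime).one_lt
    simp [Finset.card_univ, ZMod.card, Nat.cast_sub this.le]
  · have hd : b - a ≠ 0 := sub_ne_zero.mpr (Ne.symm h)
    -- substitute x + a = -(b-a) * t
    have key : ∑ x : ZMod p, qc p (x + a) * qc p (x + b)
        = ∑ t : ZMod p, qc p (-1) * (qc p t * qc p (1 - t)) := by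
      symm
      apply Fintype.sum_bijective (fun t : ZMod p => -(b - a) * t - a)
      · constructor
        · intro s t hst
          have : -(b - a) * s = -(b - a) * t := by simpa using hst
          exact mul_left_cancel₀ (neg_ne_zero.mpr hd) this
        · intro x
          refine ⟨(x + a) / (-(b - a)), ?_⟩
          field_simp
          ring
      · intro t
        have e1 : -(b - a) * t - a + a = (-1) * (b - a) * t := by ring
        have e2 : -(b - a) * t - a + b = (b - a) * (1 - t) := by ring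
        rw [e1, e2, map_mul, map_mul, map_mul]
        have := quadraticChar_sq_one hd
        rw [sq] at this
        calc qc p (-1) * (qc p t * qc p (1 - t))
            = (qc p (b - a) * qc p (b - a)) * (qc p (-1) * (qc p t * qc p (1 - t))) := by
              rw [this, one_mul]
          _ = _ := by ring
    rw [key, ← Finset.mul_sum, sum_qc_mul_one_sub p hp]
    have := quadraticChar_sq_one (F := ZMod p) (a := -1) (by simp)
    rw [sq] at this
    linear_combination -this

lemma natCast_ne (n : ℕ) (hn : p = 2 * n + 1) (k l : Fin n) (h : k ≠ l) :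
    (((k : ℕ) + 1 : ℕ) : ZMod p) ≠ (((l : ℕ) + 1 : ℕ) : ZMod p) := by
  intro h'
  rw [ZMod.natCast_eq_natCast_iff'] at h'
  have hk := k.2
  have hl := l.2
  rw [Nat.mod_eq_of_lt (by omega), Nat.mod_eq_of_lt (by omega)] at h'
  exact h (Fin.ext (by omega))

lemma natCast_ne_neg (n : ℕ) (hn : p = 2 * n + 1) (k l : Fin n) :
    (((k : ℕ) + 1 : ℕ) : ZMod p) ≠ - (((l : ℕ) + 1 : ℕ) : ZMod p) := by
  intro h'
  rw [eq_neg_iff_add_eq_zero, ← Nat.cast_add, ZMod.natCast_eq_zero_iff] at h'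
  have hk := k.2
  have hl := l.2
  have := Nat.le_of_dvd (by omega) h'
  omega

/-- sums over `ZMod p` of even functions -/
lemma sum_even {n : ℕ} (hn : p = 2 * n + 1) (f : ZMod p → ℤ)
    (hev : ∀ x, f (-x) = f x) :
    ∑ x : ZMod p, f x = f 0 + 2 * ∑ j : Fin n, f (((j : ℕ) + 1 : ℕ) : ZMod p) := by
  have h1 : ∑ x : ZMod p, f x = ∑ i ∈ Finset.range p, f (i : ZMod p) := by
    refine Finset.sum_nbij' (fun x => x.val) (fun i => (i : ZMod p)) ?_ ?_ ?_ ?_ ?_
    · intro x _
      simpa using ZMod.val_lt x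
    · intro i _
      simp
    · intro x _
      simp
    · intro i hi
      simpa using ZMod.val_cast_of_lt (Finset.mem_range.mp hi)
    · intro x _
      simp
  rw [h1]
  have h2 : Finset.range p = Finset.range (n + n + 1) := by rw [hn]; ring_nf
  rw [h2, Finset.sum_range_succ', Finset.sum_range_add, Fin.sum_univ_eq_sum_range
    (fun i => f ((i + 1 : ℕ) : ZMod p)) n]
  have h3 : ∑ i ∈ Finset.range n, f ((n + i + 1 : ℕ) : ZMod p)
      = ∑ i ∈ Finset.range n, f ((i + 1 : ℕ) : ZMod p) := by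
    rw [← Finset.sum_range_reflect]
    refine Finset.sum_congr rfl fun i hi => ?_
    rw [← hev]
    congr 1
    have hi' := Finset.mem_range.mp hi
    have : ((n + (n - 1 - i) + 1 : ℕ) + (i + 1 : ℕ) : ZMod p) = ((p : ℕ) : ZMod p) := by
      rw [← Nat.cast_add]
      congr 1
      omega
    rw [ZMod.natCast_self] at this
    exact neg_eq_of_add_eq_zero_right this
  rw [h3]
  simp
  ring

/-- the vector `((j/p))`, `1 ≤ j ≤ n` -/
noncomputable def cv (n : ℕ) : Fin n → ℤ := fun j => qc p (((j : ℕ) + 1 : ℕ) : ZMod p)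

/-- the matrix `((j+k/p) + (j-k/p))`, `1 ≤ j, k ≤ n` -/
noncomputable def TT (n : ℕ) : Matrix (Fin n) (Fin n) ℤ := Matrix.of fun j k =>
  qc p ((((j : ℕ) + 1 : ℕ) : ZMod p) + (((k : ℕ) + 1 : ℕ) : ZMod p))
    + qc p ((((j : ℕ) + 1 : ℕ) : ZMod p) - (((k : ℕ) + 1 : ℕ) : ZMod p))

lemma natCast_ne_zero' (n : ℕ) (hn : p = 2 * n + 1) (j : Fin n) :
    (((j : ℕ) + 1 : ℕ) : ZMod p) ≠ 0 := by
  intro h0
  rw [ZMod.natCast_eq_zero_iff] at h0
  have := Nat.le_of_dvd (by omega) h0
  have := j.2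
  omega

lemma cv_pm (n : ℕ) (hn : p = 2 * n + 1) (j : Fin n) : cv p n j = 1 ∨ cv p n j = -1 :=
  quadraticChar_dichotomy (natCast_ne_zero' p n hn j)

lemma cv_sq (n : ℕ) (hn : p = 2 * n + 1) : ∑ k, cv p n k * cv p n k = (n : ℤ) := by
  have : ∀ k, cv p n k * cv p n k = 1 := by
    intro k
    rcases cv_pm p n hn k with e | e <;> rw [e] <;> norm_num
  simp [this]

lemma qc_neg (x : ZMod p) : qc p (-x) = qc p (-1) * qc p x := by
  rw [← map_mul, neg_one_mul]

lemma eps_sq : qc p (-1) * qc p (-1) = 1 := by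
  rw [← map_mul]
  simp

lemma TT_one (hp : p ≠ 2) (n : ℕ) (hn : p = 2 * n + 1) (j : Fin n) :
    ∑ k, TT p n j k = - cv p n j := by
  set a : ZMod p := (((j : ℕ) + 1 : ℕ) : ZMod p) with ha
  let f : ZMod p → ℤ := fun x => qc p (a + x) + qc p (a - x)
  have hev : ∀ x, f (-x) = f x := by
    intro x
    simp only [f, sub_neg_eq_add, ← sub_eq_add_neg]
    ring
  have hs := sum_even p hn f hev
  have h0 : ∑ x : ZMod p, qc p x = 0 :=
    quadraticChar_sum_zero (by rwa [ZMod.ringChar_zmod_n])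
  have h1 : ∑ x : ZMod p, f x = 0 := by
    simp only [f, Finset.sum_add_distrib]
    have e1 : ∑ x : ZMod p, qc p (a + x) = ∑ x : ZMod p, qc p x :=
      Fintype.sum_equiv (Equiv.addLeft a) _ _ (fun x => rfl)
    have e2 : ∑ x : ZMod p, qc p (a - x) = ∑ x : ZMod p, qc p x :=
      Fintype.sum_equiv (Equiv.subLeft a) _ _ (fun x => rfl)
    rw [e1, e2, h0, add_zero]
  have h2 : f 0 = 2 * cv p n j := by
    simp only [f, add_zero, sub_zero, cv, ha]
    ring
  have h3 : ∑ k, TT p n j k = ∑ k : Fin n, f (((k : ℕ) + 1 : ℕ) : ZMod p) :=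
    Finset.sum_congr rfl fun k _ => rfl
  rw [h3]
  rw [h1, h2] at hs
  linarith

lemma TT_gram (hp : p ≠ 2) (n : ℕ) (hn : p = 2 * n + 1) (j l : Fin n) :
    ∑ k, TT p n j k * TT p n l k
      = (if j = l then (p : ℤ) else 0) - 2 * (cv p n j * cv p n l) - (1 + qc p (-1)) := by
  set a : ZMod p := (((j : ℕ) + 1 : ℕ) : ZMod p) with ha
  set b : ZMod p := (((l : ℕ) + 1 : ℕ) : ZMod p) with hb
  let f : ZMod p → ℤ := fun x => (qc p (a + x) + qc p (a - x)) * (qc p (b + x) + qc p (b - x))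
  have hev : ∀ x, f (-x) = f x := by
    intro x
    simp only [f, sub_neg_eq_add, ← sub_eq_add_neg]
    ring
  have hs := sum_even p hn f hev
  have h1 : ∑ x : ZMod p, f x = (if a = b then (p : ℤ) - 1 else -1)
      + qc p (-1) * (if a = -b then (p : ℤ) - 1 else -1)
      + qc p (-1) * (if -a = b then (p : ℤ) - 1 else -1)
      + (if -a = -b then (p : ℤ) - 1 else -1) := by
    rw [← corr p hp a b, ← corr p hp a (-b), ← corr p hp (-a) b, ← corr p hp (-a) (-b),
      Finset.mul_sum, Finset.mul_sum,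
      ← Finset.sum_add_distrib, ← Finset.sum_add_distrib, ← Finset.sum_add_distrib]
    refine Finset.sum_congr rfl fun x _ => ?_
    have e1 : qc p (a - x) = qc p (-1) * qc p (x + -a) := by
      rw [← qc_neg]; congr 1; ring
    have e2 : qc p (b - x) = qc p (-1) * qc p (x + -b) := by
      rw [← qc_neg]; congr 1; ring
    have e3 : a + x = x + a := add_comm _ _
    have e4 : b + x = x + b := add_comm _ _
    simp only [f]
    rw [e1, e2, e3, e4]
    linear_combination (qc p (x + -a) * qc p (x + -b)) * eps_sq p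
  have h2 : f 0 = 4 * (cv p n j * cv p n l) := by
    simp only [f, add_zero, sub_zero, cv, ha, hb]
    ring
  have h3 : ∑ k, TT p n j k * TT p n l k = ∑ k : Fin n, f (((k : ℕ) + 1 : ℕ) : ZMod p) :=
    Finset.sum_congr rfl fun k _ => rfl
  have hab' : a ≠ -b := natCast_ne_neg p n hn j l
  have hab'' : -a ≠ b := by
    intro h
    exact hab' (by rw [← h, neg_neg])
  rw [h3]
  rw [h1, h2, if_neg hab', if_neg hab''] at hs
  by_cases hkl : j = l
  · have : a = b := by rw [ha, hb, hkl]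
    rw [if_pos hkl]
    rw [if_pos this, if_pos (by rw [this])] at hs
    linarith
  · have : a ≠ b := natCast_ne p n hn j l hkl
    rw [if_neg hkl]
    rw [if_neg this, if_neg (by simpa using this)] at hs
    linarith

lemma TT_c (hp : p ≠ 2) (h1 : qc p (-1) = 1) (n : ℕ) (hn : p = 2 * n + 1) (j : Fin n) :
    ∑ k, TT p n j k * cv p n k = - 1 := by
  set a : ZMod p := (((j : ℕ) + 1 : ℕ) : ZMod p) with ha
  let f : ZMod p → ℤ := fun x => (qc p (a + x) + qc p (a - x)) * qc p x
  have hev : ∀ x, f (-x) = f x := by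
    intro x
    simp only [f, sub_neg_eq_add, ← sub_eq_add_neg]
    rw [qc_neg p x, h1]
    ring
  have hs := sum_even p hn f hev
  have h1 : ∑ x : ZMod p, f x = -1 + -1 := by
    have c1 := corr p hp a 0
    have c2 := corr p hp (-a) 0
    have ha0 : a ≠ 0 := natCast_ne_zero' p n hn j
    rw [if_neg ha0] at c1
    rw [if_neg (neg_ne_zero.mpr ha0)] at c2
    nth_rewrite 1 [← c1]
    rw [← c2, ← Finset.sum_add_distrib]
    refine Finset.sum_congr rfl fun x _ => ?_
    have e1 : qc p (a - x) = qc p (x + -a) := by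
      rw [show a - x = -(x + -a) by ring, qc_neg, h1, one_mul]
    simp only [f, add_zero]
    rw [e1, add_comm a x]
    ring
  have h2 : f 0 = 0 := by
    simp [f]
  have h3 : ∑ k, TT p n j k * cv p n k = ∑ k : Fin n, f (((k : ℕ) + 1 : ℕ) : ZMod p) :=
    Finset.sum_congr rfl fun k _ => rfl
  rw [h3]
  rw [h1, h2] at hs
  linarith

lemma cv_sum_zero (hp : p ≠ 2) (h1 : qc p (-1) = 1) (n : ℕ) (hn : p = 2 * n + 1) :
    ∑ k, cv p n k = 0 := by
  have hev : ∀ x : ZMod p, (fun x => qc p x) (-x) = (fun x => qc p x) x := by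
    intro x
    change qc p (-x) = qc p x
    rw [qc_neg, h1, one_mul]
  have hs : ∑ x : ZMod p, qc p x
      = qc p 0 + 2 * ∑ k : Fin n, qc p (((k : ℕ) + 1 : ℕ) : ZMod p) :=
    sum_even p hn (fun x => qc p x) hev
  have h0 : ∑ x : ZMod p, qc p x = 0 :=
    quadraticChar_sum_zero (by rwa [ZMod.ringChar_zmod_n])
  have h2 : qc p (0 : ZMod p) = 0 := by simp
  have h3 : ∑ k, cv p n k = ∑ k : Fin n, qc p (((k : ℕ) + 1 : ℕ) : ZMod p) := rfl
  rw [h3]
  rw [h0, h2] at hs
  linarith

lemma TT_off (n : ℕ) (hn : p = 2 * n + 1) (j k : Fin n) (hjk : j ≠ k) : (2 : ℤ) ∣ TT p n j k := by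
  have h1 : ∀ x : ZMod p, x ≠ 0 → qc p x = 1 ∨ qc p x = -1 := fun x hx =>
    quadraticChar_dichotomy hx
  have hs : (((j : ℕ) + 1 : ℕ) : ZMod p) + (((k : ℕ) + 1 : ℕ) : ZMod p) ≠ 0 := by
    intro h0
    exact natCast_ne_neg p n hn j k (eq_neg_of_add_eq_zero_left h0)
  have hd : (((j : ℕ) + 1 : ℕ) : ZMod p) - (((k : ℕ) + 1 : ℕ) : ZMod p) ≠ 0 :=
    sub_ne_zero.mpr (natCast_ne p n hn j k hjk)
  simp only [TT, Matrix.of_apply]
  rcases h1 _ hs with e | e <;> rcases h1 _ hd with e' | e' <;> rw [e, e'] <;> norm_num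

lemma TT_diag (n : ℕ) (j : Fin n) : TT p n j j = qc p 2 * cv p n j := by
  simp only [TT, Matrix.of_apply, cv]
  rw [sub_self, ← two_mul, map_mul]
  simp

lemma det_TT_mod (n : ℕ) (hn : p = 2 * n + 1) :
    (4 : ℤ) ∣ (TT p n).det - (qc p 2) ^ n * ∏ j, cv p n j := by
  have h1 := det_mod4 (TT p n) (TT_off p n hn)
  have h2 : ∏ j, TT p n j j = (qc p 2) ^ n * ∏ j, cv p n j := by
    simp only [TT_diag, Finset.prod_mul_distrib, Finset.prod_const, Finset.card_univ,
      Fintype.card_fin]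
  rwa [h2] at h1

lemma sum_half (n : ℕ) (F : ℕ → ℤ) :
    ∑ k ∈ Finset.range (2 * n + 1), F k
      = F 0 + ∑ j ∈ Finset.range n, (F (j + 1) + F (2 * n + 1 - (j + 1))) := by
  have h2 : Finset.range (2 * n + 1) = Finset.range (n + n + 1) := by ring_nf
  rw [h2, Finset.sum_range_succ', Finset.sum_range_add, Finset.sum_add_distrib]
  have h3 : ∑ i ∈ Finset.range n, F (n + i + 1)
      = ∑ i ∈ Finset.range n, F (2 * n + 1 - (i + 1)) := by
    rw [← Finset.sum_range_reflect]
    refine Finset.sum_congr rfl fun i hi => ?_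
    have hi' := Finset.mem_range.mp hi
    congr 1
    omega
  rw [h3]
  ring

lemma sum_double (n : ℕ) (F : ℕ → ℤ) :
    ∑ k ∈ Finset.range (2 * n + 1), F k
      = F 0 + ∑ j ∈ Finset.range n, (F (2 * (j + 1)) + F (2 * n + 1 - 2 * (j + 1))) := by
  have h1 : ∀ m : ℕ, ∑ k ∈ Finset.range (2 * m + 1), F k
      = F 0 + ∑ j ∈ Finset.range m, (F (2 * (j + 1)) + F (2 * j + 1)) := by
    intro m
    induction m with
    | zero => simp
    | succ m ih =>
      rw [show 2 * (m + 1) + 1 = 2 * m + 1 + 1 + 1 by ring, Finset.sum_range_succ,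
        Finset.sum_range_succ, ih, Finset.sum_range_succ]
      ring_nf
  rw [h1, Finset.sum_add_distrib, Finset.sum_add_distrib]
  have h3 : ∑ i ∈ Finset.range n, F (2 * i + 1)
      = ∑ i ∈ Finset.range n, F (2 * n + 1 - 2 * (i + 1)) := by
    rw [← Finset.sum_range_reflect]
    refine Finset.sum_congr rfl fun i hi => ?_
    have hi' := Finset.mem_range.mp hi
    congr 1
    omega
  rw [h3]

/-- the relation between `∑ k (k/p)` and the half sum -/
lemma half_sum (h1 : qc p (-1) = -1) (n : ℕ) (hn : p = 2 * n + 1) :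
    (2 - qc p 2) * (∑ k ∈ Finset.range p, (k : ℤ) * qc p (k : ZMod p))
      = - (p : ℤ) * ∑ j, cv p n j := by
  set F : ℕ → ℤ := fun k => (k : ℤ) * qc p (k : ZMod p) with hF
  have hneg : ∀ m : ℕ, m ≤ p → F (p - m) = - ((p : ℤ) - m) * qc p (m : ZMod p) := by
    intro m hm
    simp only [hF]
    rw [Nat.cast_sub hm, Nat.cast_sub hm, ZMod.natCast_self, zero_sub, qc_neg, h1]
    ring
  have hS : ∑ j, cv p n j = ∑ j ∈ Finset.range n, qc p ((j + 1 : ℕ) : ZMod p) := by
    rw [← Fin.sum_univ_eq_sum_range (fun i => qc p ((i + 1 : ℕ) : ZMod p)) n]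
    rfl
  have h2sq : qc p 2 * qc p 2 = 1 := by
    have h20 : (2 : ZMod p) ≠ 0 := by
      intro h
      have : ((2 : ℕ) : ZMod p) = 0 := by exact_mod_cast h
      rw [ZMod.natCast_eq_zero_iff] at this
      have h3 := Nat.le_of_dvd (by norm_num) this
      have h4 := (Fact.out : p.Prime).two_le
      omega
    rw [← sq]
    exact quadraticChar_sq_one h20
  set A := ∑ k ∈ Finset.range p, F k with hA
  set B := ∑ j ∈ Finset.range n, ((j : ℤ) + 1) * qc p ((j + 1 : ℕ) : ZMod p) with hB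
  set S := ∑ j ∈ Finset.range n, qc p ((j + 1 : ℕ) : ZMod p) with hSd
  have hA1 : A = 2 * B - p * S := by
    rw [hA, hn, sum_half, ← hn, hB, hSd, Finset.mul_sum, Finset.mul_sum, ← Finset.sum_sub_distrib]
    have h0 : F 0 = 0 := by simp [hF]
    rw [h0, zero_add]
    refine Finset.sum_congr rfl fun j hj => ?_
    have hj' := Finset.mem_range.mp hj
    rw [hneg (j + 1) (by omega)]
    simp only [hF]
    push_cast
    ring
  have hA2 : A = qc p 2 * (4 * B - p * S) := by
    have hr : Finset.range p = Finset.range (2 * n + 1) := congrArg Finset.range hn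
    rw [hA, hr, sum_double, hB, hSd, Finset.mul_sum, Finset.mul_sum,
      ← Finset.sum_sub_distrib, Finset.mul_sum]
    have h0 : F 0 = 0 := by simp [hF]
    rw [h0, zero_add]
    refine Finset.sum_congr rfl fun j hj => ?_
    have hj' := Finset.mem_range.mp hj
    rw [show 2 * n + 1 - 2 * (j + 1) = p - 2 * (j + 1) by omega, hneg (2 * (j + 1)) (by omega)]
    have e : ((2 * (j + 1) : ℕ) : ZMod p) = 2 * ((j + 1 : ℕ) : ZMod p) := by
      push_cast
      ring
    simp only [hF]
    rw [e, map_mul]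
    push_cast
    ring
  rw [hS]
  linear_combination (2 : ℤ) * hA1 + (-(qc p 2)) * hA2 - (4 * B - p * S) * h2sq

end char_sums

/-- evaluation of `D_p` in terms of the determinant of the inner matrix -/
lemma D_eq (p : ℕ) [Fact p.Prime] (hp : p ≠ 2) (n : ℕ) (hn : p = 2 * n + 1) :
    D p = C ((TT p n).det) * ((1 + C (1 + qc p (-1)) * (n : MvPolynomial (Fin 4) ℤ))
      * ((p : MvPolynomial (Fin 4) ℤ) * X 0
        + C (∑ k, cv p n k) * ((X 1 + 2) * X 2 - X 3 * X 0))) := by
  have hn' : (p - 1) / 2 = n := by omega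
  have hleg : ∀ a : ℤ, legendreSym p a = qc p (a : ZMod p) := fun a => rfl
  have hpR : (p : MvPolynomial (Fin 4) ℤ) = 2 * (n : MvPolynomial (Fin 4) ℤ) + 1 := by
    rw [hn]
    push_cast
    ring
  have htS : (1 + qc p (-1)) * ∑ k, cv p n k = 0 := by
    rcases mul_self_eq_one_iff.mp (eps_sq p) with e | e
    · rw [cv_sum_zero p hp e n hn, mul_zero]
    · rw [e]
      norm_num
  have htT : ∀ j, (1 + qc p (-1)) * ∑ k, TT p n j k * cv p n k = - (1 + qc p (-1)) := by
    intro j
    rcases mul_self_eq_one_iff.mp (eps_sq p) with e | e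
    · rw [TT_c p hp e n hn]
      ring
    · rw [e]
      norm_num
  rw [D, hn', hpR]
  have hdet : C ((TT p n).det) = ((TT p n).map (C (σ := Fin 4))).det := RingHom.map_det C _
  rw [hdet]
  have := core ((TT p n).map (C (σ := Fin 4))) (fun k => C (cv p n k)) (X 0) (X 1) (X 2) (X 3)
    (C (1 + qc p (-1))) (C (∑ k, cv p n k)) ?_ ?_ ?_ ?_ ?_
    (Matrix.of fun j k : Fin (n + 1) =>
    (X 0 + C (legendreSym p (((j : ℕ) : ℤ) + ((k : ℕ) : ℤ)))
      + C (legendreSym p (((j : ℕ) : ℤ) - ((k : ℕ) : ℤ)))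
      + C (legendreSym p ((j : ℕ) : ℤ)) * X 1 + C (legendreSym p ((k : ℕ) : ℤ)) * X 2
      + C (legendreSym p (((j : ℕ) : ℤ) * ((k : ℕ) : ℤ))) * X 3 : MvPolynomial (Fin 4) ℤ))
    ?_ ?_ ?_ ?_
  · exact this
  · intro j
    simp only [Matrix.map_apply]
    rw [← map_sum, TT_one p hp n hn, map_neg]
  · intro j
    simp only [Matrix.map_apply, ← map_mul]
    rw [← map_sum, ← map_mul, htT, map_neg]
  · rw [map_sum]
  · rw [← map_mul, htS, map_zero]
  · simp only [← map_mul]
    rw [← map_sum, cv_sq p n hn]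
    simp
  · simp [hleg]
  · intro k
    simp only [Matrix.of_apply, hleg, cv, Int.cast_add, Int.cast_sub, Int.cast_natCast,
      Fin.val_succ, Fin.val_zero, Nat.cast_zero, zero_add, zero_sub, Int.cast_zero, zero_mul,
      MulChar.map_zero, map_zero, Int.cast_mul]
    rw [qc_neg]
    simp only [map_mul, map_add, map_one]
    ring
  · intro j
    simp only [Matrix.of_apply, hleg, cv, Int.cast_add, Int.cast_sub, Int.cast_natCast,
      Fin.val_succ, Fin.val_zero, Nat.cast_zero, add_zero, sub_zero, Int.cast_zero, mul_zero,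
      MulChar.map_zero, map_zero, zero_mul, Int.cast_mul]
    ring
  · intro j k
    simp only [Matrix.of_apply, hleg, cv, TT, Matrix.map_apply, Int.cast_add, Int.cast_sub,
      Int.cast_natCast, Fin.val_succ, map_add, map_mul, Int.cast_mul]
    ring

lemma int_pow_sq (a : ℤ) (q m : ℕ) (h : a ^ 2 = (q : ℤ) ^ (2 * m)) :
    a = (q : ℤ) ^ m ∨ a = - (q : ℤ) ^ m := by
  rw [mul_comm, pow_mul] at h
  exact sq_eq_sq_iff_eq_or_eq_neg.mp h

lemma pow_mod4_one (p m : ℕ) (h : p % 4 = 1) : (4 : ℤ) ∣ (p : ℤ) ^ m - 1 := by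
  have h1 : (4 : ℤ) ∣ (p : ℤ) - 1 := by omega
  exact h1.trans (by simpa using sub_dvd_pow_sub_pow (p : ℤ) 1 m)

lemma pow_mod4_three (p m : ℕ) (h : p % 4 = 3) : (4 : ℤ) ∣ (p : ℤ) ^ m - (-1) ^ m := by
  have h1 : (4 : ℤ) ∣ (p : ℤ) - (-1) := by omega
  exact h1.trans (sub_dvd_pow_sub_pow (p : ℤ) (-1) m)

lemma qc_two (p : ℕ) [Fact p.Prime] (hp : p ≠ 2) :
    qc p 2 = if p % 8 = 1 ∨ p % 8 = 7 then 1 else -1 := by
  have h1 := quadraticChar_two (F := ZMod p) (by rwa [ZMod.ringChar_zmod_n])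
  rw [ZMod.card] at h1
  have h2 := ZMod.χ₈_nat_eq_if_mod_eight p
  rw [qc, h1, h2]
  have hodd : p % 2 = 1 := (Fact.out : p.Prime).eq_two_or_odd.resolve_left hp
  simp [hodd]

lemma det_one_mod (p : ℕ) [Fact p.Prime] (h : p % 4 = 1) :
    (TT p ((p - 1) / 2)).det = qc p 2 * (p : ℤ) ^ ((p - 5) / 4) := by
  have hprime : p.Prime := Fact.out
  have hp5 : 5 ≤ p := by
    have := hprime.two_le
    by_contra hlt
    have : p = 2 ∨ p = 3 ∨ p = 4 := by omega
    rcases this with rfl | rfl | rfl <;> omega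
  have hp : p ≠ 2 := by omega
  obtain ⟨m, hm⟩ : ∃ m, p = 4 * m + 5 := ⟨(p - 5) / 4, by omega⟩
  have hm' : (p - 5) / 4 = m := by omega
  obtain ⟨n, hn⟩ : ∃ n, n = 2 * m + 2 := ⟨_, rfl⟩
  have hpn : p = 2 * n + 1 := by omega
  have hn' : (p - 1) / 2 = n := by omega
  rw [hn', hm']
  have he : qc p (-1) = 1 := by
    rw [quadraticChar_neg_one (by rwa [ZMod.ringChar_zmod_n]), ZMod.card]
    exact ZMod.χ₄_nat_one_mod_four h
  have hS := cv_sum_zero p hp he n hpn
  have h1 := det_gram p hpn (TT p n) (cv p n) (1 + qc p (-1)) 0 (TT_gram p hp n hpn)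
    (cv_sq p n hpn) hS (mul_zero _)
  rw [he] at h1
  have hp0 : (p : ℤ) ≠ 0 := by exact_mod_cast hprime.ne_zero
  have h2 : (TT p n).det ^ 2 = (p : ℤ) ^ (2 * m) := by
    have e1 : ((p : ℤ) - (1 + 1) * n) = 1 := by
      rw [hpn]
      push_cast
      ring
    rw [e1, mul_one] at h1
    have e2 : (p : ℤ) ^ n = (p : ℤ) ^ (2 * m) * (p : ℤ) ^ 2 := by
      rw [← pow_add, hn]
    rw [e2] at h1
    exact mul_right_cancel₀ (pow_ne_zero 2 hp0) h1
  have h3 := int_pow_sq _ _ _ h2
  have h4 := det_TT_mod p n hpn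
  have h5 := prod_mod4 (cv p n) (cv_pm p n hpn)
  have h6 := prod_pm (cv p n) (cv_pm p n hpn)
  have h7 := pow_mod4_one p m h
  rw [hS] at h5
  have h8 := qc_two p hp
  have h9 : (qc p 2) ^ n = 1 := by
    have : n = 2 * (m + 1) := by omega
    rw [this, pow_mul]
    split_ifs at h8 <;> rw [h8] <;> norm_num
  rw [h9, one_mul] at h4
  set P := ∏ j, cv p n j with hP
  set d := (TT p n).det with hd
  set Q := (p : ℤ) ^ m with hQ
  have hPq : P = qc p 2 := by
    rw [h8]
    split_ifs with hc <;> rcases h6 with e | e <;> rw [e] at h5 ⊢ <;> omega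
  rw [← hPq]
  rcases h6 with e | e <;> rw [e] at h4 ⊢ <;> rcases h3 with e' | e' <;> rw [e'] at h4 ⊢ <;> omega

lemma det_three_mod (p : ℕ) [Fact p.Prime] (h : p % 4 = 3) (n m : ℕ) (hn : n = 2 * m + 1)
    (hpn : p = 2 * n + 1) (hh : ℤ) (hS : ∑ j, cv p n j = (2 - qc p 2) * hh) :
    hh % 2 = 1 ∧ (TT p n).det = (-1) ^ ((hh - 1) / 2).natAbs * (p : ℤ) ^ m := by
  have hprime : p.Prime := Fact.out
  have hp : p ≠ 2 := by omega
  have he : qc p (-1) = -1 := by
    rw [quadraticChar_neg_one (by rwa [ZMod.ringChar_zmod_n]), ZMod.card]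
    exact ZMod.χ₄_nat_three_mod_four h
  have h1 := det_gram p hpn (TT p n) (cv p n) (1 + qc p (-1)) (∑ j, cv p n j)
    (TT_gram p hp n hpn) (cv_sq p n hpn) rfl (by rw [he]; norm_num)
  rw [he] at h1
  have hp0 : (p : ℤ) ≠ 0 := by exact_mod_cast hprime.ne_zero
  have h2 : (TT p n).det ^ 2 = (p : ℤ) ^ (2 * m) := by
    have e1 : ((p : ℤ) - (1 + -1) * n) = p := by ring
    rw [e1] at h1
    have e2 : (p : ℤ) ^ n * (p : ℤ) = (p : ℤ) ^ (2 * m) * (p : ℤ) ^ 2 := by
      rw [← pow_add, hn, ← pow_succ]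
    rw [e2] at h1
    exact mul_right_cancel₀ (pow_ne_zero 2 hp0) h1
  have h3 := int_pow_sq _ _ _ h2
  have h4 := det_TT_mod p n hpn
  have h5 := prod_mod4 (cv p n) (cv_pm p n hpn)
  have h6 := prod_pm (cv p n) (cv_pm p n hpn)
  have h7 := pow_mod4_three p m h
  rw [hS] at h5
  have h8 := qc_two p hp
  have h9 : (qc p 2) ^ n = qc p 2 := by
    rw [hn, pow_succ, pow_mul]
    split_ifs at h8 <;> rw [h8] <;> norm_num
  rw [h9] at h4
  set P := ∏ j, cv p n j with hP
  set d := (TT p n).det with hd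
  set Q := (p : ℤ) ^ m with hQ
  have hodd : hh % 2 = 1 := by
    split_ifs at h8 with hc <;> rw [h8] at h5 <;> rcases h6 with e | e <;> rw [e] at h5 <;> omega
  refine ⟨hodd, ?_⟩
  have hsgn : ((-1 : ℤ) ^ ((hh - 1) / 2).natAbs = 1 ∧ hh % 4 = 1) ∨
      ((-1 : ℤ) ^ ((hh - 1) / 2).natAbs = -1 ∧ hh % 4 = 3) := by
    have : hh % 4 = 1 ∨ hh % 4 = 3 := by omega
    rcases this with e | e
    · left
      refine ⟨?_, e⟩
      apply Even.neg_one_pow
      rw [Int.natAbs_even]
      rw [Int.even_iff]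
      omega
    · right
      refine ⟨?_, e⟩
      apply Odd.neg_one_pow
      rw [Int.natAbs_odd]
      rw [Int.odd_iff]
      omega
  have hmp : ((-1 : ℤ) ^ m = 1 ∧ m % 2 = 0) ∨ ((-1 : ℤ) ^ m = -1 ∧ m % 2 = 1) := by
    rcases Nat.even_or_odd m with e | e
    · left
      exact ⟨e.neg_one_pow, by rw [Nat.even_iff] at e; exact e⟩
    · right
      exact ⟨e.neg_one_pow, by rw [Nat.odd_iff] at e; exact e⟩
  split_ifs at h8 with hc
  · rw [h8] at h4 h5
    rcases hsgn with ⟨s1, s2⟩ | ⟨s1, s2⟩ <;> rw [s1] <;>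
      rcases hmp with ⟨m1, m2⟩ | ⟨m1, m2⟩ <;> rw [m1] at h7 <;>
      rcases h6 with e | e <;> rw [e] at h4 h5 <;> rcases h3 with e' | e' <;> rw [e'] at h4 ⊢ <;>
      omega
  · rw [h8] at h4 h5
    rcases hsgn with ⟨s1, s2⟩ | ⟨s1, s2⟩ <;> rw [s1] <;>
      rcases hmp with ⟨m1, m2⟩ | ⟨m1, m2⟩ <;> rw [m1] at h7 <;>
      rcases h6 with e | e <;> rw [e] at h4 h5 <;> rcases h3 with e' | e' <;> rw [e'] at h4 ⊢ <;>
      omega

/-- Closed form of `D_p` for every prime `p > 3`. For `p ≡ 3 (mod 4)` the integer `h` is given by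
Dirichlet's expression `-(1/p) ∑ k (k/p)`. -/
theorem closed_form (p : ℕ) [Fact p.Prime] (hp : 3 < p) :
    (p % 4 = 1 → D p = C (legendreSym p 2) * (p : MvPolynomial (Fin 4) ℤ) ^ ((p + 3) / 4) * X 0) ∧
    (p % 4 = 3 → ∃ h : ℤ, (p : ℤ) * h = - ∑ k ∈ Finset.range p, (k : ℤ) * legendreSym p k ∧
      h % 2 = 1 ∧
      D p = (-1) ^ ((h - 1) / 2).natAbs * (p : MvPolynomial (Fin 4) ℤ) ^ ((p - 3) / 4) *
        ((p : MvPolynomial (Fin 4) ℤ) * X 0 +
          C ((2 - legendreSym p 2) * h) * ((X 1 + 2) * X 2 - X 3 * X 0))) := by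
  have hprime : p.Prime := Fact.out
  have hp2 : p ≠ 2 := by omega
  have hleg2 : legendreSym p 2 = qc p 2 := by
    simp [legendreSym]
  constructor
  · intro h
    obtain ⟨m, hm⟩ : ∃ m, p = 4 * m + 5 := ⟨(p - 5) / 4, by omega⟩
    have hpn : p = 2 * ((p - 1) / 2) + 1 := by omega
    have he : qc p (-1) = 1 := by
      rw [quadraticChar_neg_one (by rwa [ZMod.ringChar_zmod_n]), ZMod.card]
      exact ZMod.χ₄_nat_one_mod_four h
    rw [D_eq p hp2 ((p - 1) / 2) hpn, det_one_mod p h, cv_sum_zero p hp2 he _ hpn, he, hleg2]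
    have e1 : (p + 3) / 4 = (p - 5) / 4 + 2 := by omega
    have e2 : (1 + C (1 + 1) * (((p - 1) / 2 : ℕ) : MvPolynomial (Fin 4) ℤ))
        = (p : MvPolynomial (Fin 4) ℤ) := by
      have : (p : MvPolynomial (Fin 4) ℤ)
          = ((2 * ((p - 1) / 2) + 1 : ℕ) : MvPolynomial (Fin 4) ℤ) := congrArg _ hpn
      rw [this]
      push_cast
      norm_num
      ring
    rw [e1, e2]
    simp only [map_mul, map_pow, map_zero, map_natCast]
    ring
  · intro h
    obtain ⟨m, hm⟩ : ∃ m, p = 4 * m + 3 := ⟨(p - 3) / 4, by omega⟩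
    have hm' : (p - 3) / 4 = m := by omega
    obtain ⟨n, hn⟩ : ∃ n, n = 2 * m + 1 := ⟨_, rfl⟩
    have hpn : p = 2 * n + 1 := by omega
    have he : qc p (-1) = -1 := by
      rw [quadraticChar_neg_one (by rwa [ZMod.ringChar_zmod_n]), ZMod.card]
      exact ZMod.χ₄_nat_three_mod_four h
    have hhalf := half_sum p he n hpn
    set A := ∑ k ∈ Finset.range p, (k : ℤ) * qc p (k : ZMod p) with hA
    have hA' : ∑ k ∈ Finset.range p, (k : ℤ) * legendreSym p k = A := by
      rw [hA]
      refine Finset.sum_congr rfl fun k _ => ?_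
      rw [legendreSym]
      simp
    have hdvd : (p : ℤ) ∣ A := by
      have hd : (p : ℤ) ∣ (2 - qc p 2) * A := by
        rw [hhalf]
        exact Dvd.dvd.mul_right (by simp) _
      have hpp : Prime (p : ℤ) := Nat.prime_iff_prime_int.mp hprime
      rcases hpp.dvd_or_dvd hd with h1 | h1
      · exfalso
        have h8 := qc_two p hp2
        split_ifs at h8 <;> rw [h8] at h1
        · norm_num at h1
          have := Int.le_of_dvd (by norm_num) h1
          omega
        · norm_num at h1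
          have := Int.le_of_dvd (by norm_num) h1
          omega
      · exact h1
    obtain ⟨g, hg⟩ := hdvd
    have hp0 : (p : ℤ) ≠ 0 := by exact_mod_cast hprime.ne_zero
    have hS : ∑ j, cv p n j = (2 - qc p 2) * (-g) := by
      rw [hg] at hhalf
      have : (p : ℤ) * (∑ j, cv p n j) = (p : ℤ) * ((2 - qc p 2) * (-g)) := by
        linear_combination hhalf
      exact mul_left_cancel₀ hp0 this
    obtain ⟨hodd, hdet⟩ := det_three_mod p h n m hn hpn (-g) hS
    refine ⟨-g, ?_, hodd, ?_⟩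
    · rw [hA', hg]
      ring
    · rw [D_eq p hp2 n hpn, hdet, hS, he, hm', hleg2]
      simp only [map_mul, map_pow, map_natCast, map_neg, map_one]
      simp

end Pool.Agent.DPQ
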