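import Mathlib

/-! Existence of the quadratic field `ℚ(√-p)`. -/

open Polynomial

namespace Pool.Agent.DPQ

theorem exists_field (p : ℕ) (hp : p.Prime) :
    ∃ (K : Type) (_ : Field K) (_ : NumberField K) (a : K),
      Module.finrank ℚ K = 2 ∧ a ^ 2 = -(p : K) := by
  let f : ℚ[X] := X ^ 2 + C (p : ℚ)
  have hmonic : f.Monic := monic_X_pow_add_C _ (by norm_num)
  have hdeg : f.natDegree = 2 := natDegree_X_pow_add_C
  have hroot : ∀ x : ℚ, ¬ f.IsRoot x := by
    intro x hx
    have h1 : x ^ 2 + (p : ℚ) = 0 := by simpa [f, IsRoot] using hx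
    have h2 : (0 : ℚ) < p := by exact_mod_cast hp.pos
    nlinarith [sq_nonneg x]
  have hirr : Irreducible f := by
    rw [Monic.irreducible_iff_roots_eq_zero_of_degree_le_three hmonic (by omega) (by omega)]
    rw [Multiset.eq_zero_iff_forall_notMem]
    intro x hx
    exact hroot x ((mem_roots hmonic.ne_zero).mp hx)
  have : Fact (Irreducible f) := ⟨hirr⟩
  have hfin : Module.finrank ℚ (AdjoinRoot f) = 2 := by
    rw [(AdjoinRoot.powerBasis hmonic.ne_zero).finrank, AdjoinRoot.powerBasis_dim, hdeg]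
  have : FiniteDimensional ℚ (AdjoinRoot f) := by
    apply Module.finite_of_finrank_pos
    rw [hfin]
    norm_num
  have : CharZero (AdjoinRoot f) := charZero_of_injective_algebraMap (algebraMap ℚ _).injective
  refine ⟨AdjoinRoot f, inferInstance, { }, AdjoinRoot.root f, hfin, ?_⟩
  have h := AdjoinRoot.eval₂_root f
  have h1 : (AdjoinRoot.root f) ^ 2 + (p : AdjoinRoot f) = 0 := by
    simpa [f] using h
  exact eq_neg_of_add_eq_zero_left h1

end Pool.Agent.DPQ
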